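import Pool.Agent.T2H62.MS.C
import Pool.Agent.T2H62.MD.J

set_option autoImplicit false

/-! # The second conjecture of Hardy and Littlewood for the random primes: the exact range -/

namespace Pool.Agent.T2H62.MS

open Finset Filter Topology MeasureTheory ProbabilityTheory
open Pool.Agent.T2H53.GW
open Pool.Agent.T2H62.MD
open Pool.Agent.H305R2 (VV VV_tendsto)

variable {Ω : Type*} [MeasurableSpace Ω] {μ : Measure Ω} [IsProbabilityMeasure μ] {S : ℕ → Set Ω}

/-- no window up to `exp ((1 - ε) y)` has as many random primes as the initial interval -/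
theorem second_low (A : ℝ) (hA : 0 < A) (hm : ∀ n, MeasurableSet (S n)) (hi : iIndepSet S μ)
    (hp : ∀ n, μ.real (S n) = pr A n) :
    ∀ᵐ ω ∂μ, ∀ ε : ℝ, 0 < ε → ∀ᶠ y : ℕ in atTop, ∀ x : ℕ, y ≤ x → Real.log x ≤ (1 - ε) * y →
      cnt (Ioc x (x + y)) S ω + y / (5 * Real.log y ^ 2) ≤ cnt (Ioc 0 y) S ω := by
  have hT : Tendsto (fun n : ℕ => (n : ℝ)) atTop atTop := tendsto_natCast_atTop_atTop
  have hLt : Tendsto (fun n : ℕ => Real.log (n : ℝ)) atTop atTop := Real.tendsto_log_atTop.comp hT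
  filter_upwards [count_low A hA hm hi hp, conc A hm hi hp, far A hA hm hi hp] with ω h1 h2 h3
  -- the case `ε ≤ 1`
  have main : ∀ ε : ℝ, 0 < ε → ε ≤ 1 → ∀ᶠ y : ℕ in atTop, ∀ x : ℕ, y ≤ x → Real.log x ≤ (1 - ε) * y →
      cnt (Ioc x (x + y)) S ω + y / (5 * Real.log y ^ 2) ≤ cnt (Ioc 0 y) S ω := by
    intro ε hε hε1
    filter_upwards [h1, h2, h3 ε hε hε1, diff_low, mean_far A hA, mean_mid A hA, eventually_ge_atTop 3,
      log_pow_small 2 880 (1 / 6) (by norm_num) (by norm_num), log_pow_small 1 64 (1 / 2) (by norm_num) (by norm_num),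
      hLt.eventually_ge_atTop (16 / ε), hLt.eventually_ge_atTop 8]
      with y a1 a2 a3 a4 a5 a6 a7 a8 a9 a10 a11 x hx hx2
    rw [pow_one, ← Real.sqrt_eq_rpow] at a9
    obtain ⟨L, hL⟩ : ∃ L : ℝ, L = Real.log y := ⟨_, rfl⟩
    rw [← hL] at a4 a6 a3 a8 a9 a10 a11 ⊢
    have hL0 : 0 < L := by linarith
    have hy0 : (0 : ℝ) < y := by exact_mod_cast (by omega : 0 < y)
    have hy1 : (1 : ℝ) ≤ y := by exact_mod_cast (by omega : 1 ≤ y)
    obtain ⟨P, hP⟩ : ∃ P : ℝ, P = cnt (Ioc 0 y) S ω := ⟨_, rfl⟩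
    rw [← hP] at a1 ⊢
    -- the errors
    have e1 : 880 * (y : ℝ) ^ (5 / 6 : ℝ) ≤ y / L ^ 2 := by
      rw [le_div_iff₀ (by positivity)]
      calc 880 * (y : ℝ) ^ (5 / 6 : ℝ) * L ^ 2 = (880 * L ^ 2) * (y : ℝ) ^ (5 / 6 : ℝ) := by ring
        _ ≤ (y : ℝ) ^ (1 / 6 : ℝ) * (y : ℝ) ^ (5 / 6 : ℝ) := mul_le_mul_of_nonneg_right a8 (by positivity)
        _ = y := by
            rw [← Real.rpow_add hy0]
            norm_num
    have e2 : (y : ℝ) ^ (3 / 4 : ℝ) ≤ (y : ℝ) ^ (5 / 6 : ℝ) := Real.rpow_le_rpow_of_exponent_le hy1 (by norm_num)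
    have e3 : (y : ℝ) ^ (1 / 2 : ℝ) ≤ (y : ℝ) ^ (5 / 6 : ℝ) := Real.rpow_le_rpow_of_exponent_le hy1 (by norm_num)
    have e4 : (y : ℝ) / (4 * L ^ 2) = 1 / 4 * (y / L ^ 2) := by ring
    have e5 : (y : ℝ) / (5 * L ^ 2) = 1 / 5 * (y / L ^ 2) := by ring
    have e6 : (y : ℝ) / L ^ 2 ≤ ε / 16 * (y / L) := by
      rw [div_le_iff₀ hε] at a10
      have : (y : ℝ) / L ^ 2 = 1 / L * (y / L) := by field_simp
      rw [this]
      apply mul_le_mul_of_nonneg_right _ (by positivity)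
      rw [div_le_iff₀ hL0]
      linarith
    have e7 : (y : ℝ) / L ^ 2 ≤ 1 / 8 * (y / L) := by
      have : (y : ℝ) / L ^ 2 = 1 / L * (y / L) := by field_simp
      rw [this]
      apply mul_le_mul_of_nonneg_right _ (by positivity)
      rw [div_le_iff₀ hL0]
      linarith
    have hyL2 : 0 < (y : ℝ) / L ^ 2 := by positivity
    rw [e4] at a4
    rw [e5]
    -- lower bound for `π_R(y)`
    have hlow : y / L - 2 ≤ ∑ n ∈ Ioc 2 y, 1 / Real.log (n : ℝ) := by
      have b1 : ∀ n ∈ Ioc 2 y, 1 / L ≤ 1 / Real.log (n : ℝ) := by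
        intro n hn
        rw [mem_Ioc] at hn
        have b2 := log_ge_one (n := n) (by omega)
        apply one_div_le_one_div_of_le (by linarith)
        rw [hL]
        exact Real.log_le_log (by exact_mod_cast (by omega : 0 < n)) (by exact_mod_cast hn.2)
      have b2 := card_nsmul_le_sum (Ioc 2 y) _ _ b1
      rw [Nat.card_Ioc, nsmul_eq_mul, Nat.cast_sub (by omega : 2 ≤ y)] at b2
      refine le_trans ?_ b2
      push_cast
      rw [sub_mul, mul_one_div]
      have : 2 * (1 / L) ≤ 2 := by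
        rw [mul_one_div, div_le_iff₀ hL0]
        linarith
      linarith
    have hy56 : (1 : ℝ) ≤ (y : ℝ) ^ (5 / 6 : ℝ) := Real.one_le_rpow hy1 (by norm_num)
    rcases le_or_gt (Real.sqrt y) (Real.log x) with hc | hc
    · have b1 := a3 x hc hx2
      linarith
    · have b1 := a2 x hc.le
      rcases le_or_gt (y ^ 64) x with hd | hd
      · have b2 := a6 x hd
        linarith
      · have b2 := a5 x hx hd.le
        linarith
  intro ε hε
  rcases le_or_gt ε 1 with h | h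
  · exact main ε hε h
  · filter_upwards [eventually_ge_atTop 3] with y hy x hx hx2
    exfalso
    have h4 := log_ge_one (n := x) (by omega)
    have h5 : (1 - ε) * y ≤ 0 := mul_nonpos_of_nonpos_of_nonneg (by linarith) (Nat.cast_nonneg _)
    linarith

/-- windows with many random primes beyond `exp ((1 + ε) y)` -/
theorem second_exists (A : ℝ) (hA : 0 < A) (hm : ∀ n, MeasurableSet (S n)) (hi : iIndepSet S μ)
    (hp : ∀ n, μ.real (S n) = pr A n) :
    ∀ᵐ ω ∂μ, ∀ ε : ℝ, 0 < ε → ∀ α : ℝ, α < 1 / 2 → ∀ᶠ y : ℕ in atTop, ∀ N : ℕ, (1 + ε) * y ≤ Real.log N →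
      ∃ x ∈ Ioc N (2 * N),
        cnt (Ioc 0 y) S ω + α * (y * Real.log (Real.log (Real.log y)) / Real.log y ^ 2) ≤ cnt (Ioc x (x + y)) S ω := by
  classical
  obtain ⟨C, hC, hpnt⟩ := Pool.Agent.H381R2.HR.Asm.pnt2
  have hT : Tendsto (fun n : ℕ => (n : ℝ)) atTop atTop := tendsto_natCast_atTop_atTop
  have hLt : Tendsto (fun n : ℕ => Real.log (n : ℝ)) atTop atTop := Real.tendsto_log_atTop.comp hT
  filter_upwards [count_upper A hA hm hi hp, Pool.Agent.T2H62.ML.patterns_all A hA hm hi hp] with ω h1 h2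
  have main : ∀ ε : ℝ, 0 < ε → ε ≤ 1 → ∀ α : ℝ, α < 1 / 2 → ∀ᶠ y : ℕ in atTop, ∀ N : ℕ, (1 + ε) * y ≤ Real.log N →
      ∃ x ∈ Ioc N (2 * N),
        cnt (Ioc 0 y) S ω + α * (y * Real.log (Real.log (Real.log y)) / Real.log y ^ 2) ≤ cnt (Ioc x (x + y)) S ω := by
    intro ε hε hε1 α hα
    obtain ⟨β, hβ⟩ : ∃ β : ℝ, β = (α + 1 / 2) / 2 := ⟨_, rfl⟩
    have hβ1 : β < 1 / 2 := by rw [hβ]; linarith
    have hβ2 : 0 < β - α := by rw [hβ]; linarith
    obtain ⟨y₀, h3⟩ := Pool.Agent.T2H62.HRW.large β hβ1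
    have hl3 : ∀ᶠ y : ℕ in atTop, (36 + C) / (β - α) ≤ Real.log (Real.log (Real.log y)) :=
      (Real.tendsto_log_atTop.comp (Real.tendsto_log_atTop.comp (Real.tendsto_log_atTop.comp hT))).eventually_ge_atTop _
    have hl3' : ∀ᶠ y : ℕ in atTop, 1 ≤ Real.log (Real.log (Real.log y)) :=
      (Real.tendsto_log_atTop.comp (Real.tendsto_log_atTop.comp (Real.tendsto_log_atTop.comp hT))).eventually_ge_atTop _
    have hl4 : ∀ᶠ y : ℕ in atTop, 37 / (ε / 16) * Real.log (Real.log (Real.log y)) ≤ Real.log y := by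
      have g1 : ∀ᶠ u : ℝ in atTop, 37 / (ε / 16) * Real.log u ≤ u := by
        have h3 := Real.isLittleO_log_id_atTop.bound (show (0 : ℝ) < 1 / (37 / (ε / 16)) by positivity)
        filter_upwards [h3, eventually_ge_atTop 1] with u hu hu1
        rw [Real.norm_eq_abs, Real.norm_eq_abs, id, abs_of_nonneg (by linarith : (0 : ℝ) ≤ u)] at hu
        have := mul_le_mul_of_nonneg_left ((le_abs_self _).trans hu) (show (0 : ℝ) ≤ 37 / (ε / 16) by positivity)
        refine this.trans (le_of_eq ?_)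
        field_simp
      have g2 : ∀ᶠ u : ℝ in atTop, Real.log (Real.log u) ≤ Real.log u := by
        filter_upwards [eventually_gt_atTop 1] with u hu
        have := Real.log_le_sub_one_of_pos (Real.log_pos hu)
        linarith
      filter_upwards [hLt.eventually g1, hLt.eventually g2] with y a1 a2
      refine le_trans (mul_le_mul_of_nonneg_left a2 (by positivity)) a1
    obtain ⟨N₀, hN₀⟩ := eventually_atTop.1 ((h2 (ε / 4) (by positivity)).and
      (((Real.tendsto_log_atTop.comp hLt).eventually_ge_atTop 1).and (hLt.eventually (show ∀ᶠ u : ℝ in atTop, Real.log u ^ 2 ≤ u by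
        have h3 := (Real.isLittleO_pow_log_id_atTop (n := 2)).bound (show (0 : ℝ) < 1 by positivity)
        filter_upwards [h3, eventually_ge_atTop 1] with u hu hu1
        rw [Real.norm_eq_abs, Real.norm_eq_abs, abs_of_nonneg (by positivity), id, abs_of_nonneg (by linarith), one_mul] at hu
        exact hu))))
    filter_upwards [h1, hl3, hl3', hl4, eventually_ge_atTop y₀, eventually_ge_atTop 3, eventually_ge_atTop N₀,
      hLt.eventually_ge_atTop 16, log_pow_small 2 1 1 one_pos one_pos]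
      with y a1 a2 a3 a4 a5 a6 a7 a8 a9 N hN
    obtain ⟨T, hTy, hTa, hTc⟩ := h3 y a5
    have hy0 : (0 : ℝ) < y := by exact_mod_cast (by omega : 0 < y)
    have hy1 : (1 : ℝ) ≤ y := by exact_mod_cast (by omega : 1 ≤ y)
    obtain ⟨L, hL⟩ : ∃ L : ℝ, L = Real.log y := ⟨_, rfl⟩
    obtain ⟨l3, hl3⟩ : ∃ l3 : ℝ, l3 = Real.log (Real.log (Real.log y)) := ⟨_, rfl⟩
    obtain ⟨ℓ, hℓ⟩ : ∃ ℓ : ℝ, ℓ = Real.log N := ⟨_, rfl⟩
    have hpi := hpnt y (by exact_mod_cast (by omega : 2 ≤ y))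
    rw [Nat.floor_natCast] at hpi
    have hpi' := (abs_le.1 hpi).1
    rw [← hl3] at a2 a3 a4 hTc ⊢
    rw [← hL] at a1 a4 a8 a9 hTc hpi' ⊢
    rw [← hℓ] at hN
    have hL0 : 0 < L := by linarith
    obtain ⟨D, hD⟩ : ∃ D : ℝ, D = y / L ^ 2 := ⟨_, rfl⟩
    have hD0 : 0 < D := by rw [hD]; positivity
    have hD1 : 1 ≤ D := by
      rw [hD, le_div_iff₀ (by positivity), one_mul]
      rw [Real.rpow_one, one_mul] at a9
      exact a9
    have e1 : (y : ℝ) * l3 / L ^ 2 = l3 * D := by rw [hD]; ring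
    have e2 : 35 * (y : ℝ) / L ^ 2 = 35 * D := by rw [hD]; ring
    rw [e1] at hTc ⊢
    rw [e2] at a1
    rw [← hD] at hpi'
    rw [div_le_iff₀ hβ2] at a2
    obtain ⟨P, hP⟩ : ∃ P : ℝ, P = cnt (Ioc 0 y) S ω := ⟨_, rfl⟩
    rw [← hP] at a1 ⊢
    have hP0 : 0 ≤ P := by
      rw [hP]
      exact sum_nonneg fun _ _ => Set.indicator_nonneg (fun _ _ => zero_le_one) _
    -- the number of elements
    obtain ⟨α', hα'⟩ : ∃ α' : ℝ, α' = max α 0 := ⟨_, rfl⟩
    have hα1 : α ≤ α' := by rw [hα']; exact le_max_left _ _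
    have hα0 : 0 ≤ α' := by rw [hα']; exact le_max_right _ _
    have hα2 : α' ≤ 1 / 2 := by rw [hα']; exact max_le hα.le (by norm_num)
    obtain ⟨t, ht⟩ : ∃ t : ℕ, t = ⌈P + α * (l3 * D)⌉₊ := ⟨_, rfl⟩
    have ht1 : P + α * (l3 * D) ≤ t := by rw [ht]; exact Nat.le_ceil _
    have htT : t ≤ T.card := by
      rw [ht]
      apply Nat.ceil_le.2
      have e3 : (36 + C) * D ≤ l3 * (β - α) * D := mul_le_mul_of_nonneg_right a2 hD0.le
      nlinarith
    have ht2 : (t : ℝ) ≤ (1 + ε / 16) * (y / L) := by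
      have b1 : (t : ℝ) ≤ P + α' * (l3 * D) + 1 := by
        have b2 : P + α * (l3 * D) ≤ P + α' * (l3 * D) := by
          have : 0 ≤ l3 * D := by positivity
          nlinarith
        have b3 : 0 ≤ P + α' * (l3 * D) := by positivity
        have b4 : t ≤ ⌈P + α' * (l3 * D)⌉₊ := by rw [ht]; exact Nat.ceil_le_ceil b2
        have b5 := Nat.ceil_lt_add_one b3
        have b6 : (t : ℝ) ≤ (⌈P + α' * (l3 * D)⌉₊ : ℝ) := by exact_mod_cast b4
        linarith
      have b2 : α' * (l3 * D) ≤ l3 * D := by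
        have : 0 ≤ l3 * D := by positivity
        nlinarith
      have b3 : 37 * (l3 * D) ≤ ε / 16 * (y / L) := by
        have b4 : 37 * l3 ≤ ε / 16 * L := by
          rw [div_mul_eq_mul_div, div_le_iff₀ (by positivity)] at a4
          linarith
        have b5 : (y : ℝ) / L = L * D := by rw [hD]; field_simp
        rw [b5]
        calc 37 * (l3 * D) = 37 * l3 * D := by ring
          _ ≤ ε / 16 * L * D := mul_le_mul_of_nonneg_right b4 hD0.le
          _ = ε / 16 * (L * D) := by ring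
      have b4 : 35 * D + 1 ≤ 36 * (l3 * D) := by nlinarith
      linarith
    obtain ⟨T', hT', hT'c⟩ := exists_subset_card_eq htT
    -- `N` is large
    have hyN : y ≤ N := by
      by_contra hcon
      push Not at hcon
      have b1 : ℓ ≤ L := by
        rw [hℓ, hL]
        rcases Nat.eq_zero_or_pos N with h0 | h0
        · rw [h0]
          simp only [Nat.cast_zero, Real.log_zero]
          rw [← hL]
          exact hL0.le
        · exact Real.log_le_log (by exact_mod_cast h0) (by exact_mod_cast hcon.le)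
      have b2 : L ≤ y - 1 := by rw [hL]; exact Real.log_le_sub_one_of_pos hy0
      nlinarith
    obtain ⟨f1, f2, f3⟩ := hN₀ N (a7.trans hyN)
    simp only [Function.comp] at f2
    obtain ⟨l2, hl2⟩ : ∃ l2 : ℝ, l2 = Real.log (Real.log N) := ⟨_, rfl⟩
    rw [← hl2] at f1 f2 f3
    rw [← hℓ] at f1 f3
    have hyℓ : (y : ℝ) ≤ ℓ := by nlinarith
    have hℓ0 : 0 < ℓ := by linarith
    obtain ⟨x, hx, hxT⟩ := f1 y T' (hT'.trans hTy) (Pool.Agent.T2H62.ML.AdmP.mono hT' hTa) (by
      calc (y : ℝ) * l2 ^ 2 ≤ ℓ * ℓ := mul_le_mul hyℓ f3 (by positivity) hℓ0.le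
        _ = ℓ ^ 2 := by ring) (by
      rw [hT'c]
      -- `log ℓ / ℓ` decreases
      have b1 : Real.exp 1 ≤ 3 := by linarith [Real.exp_one_lt_d9]
      have hy3 : (3 : ℝ) ≤ y := by exact_mod_cast a6
      have b2 := Real.log_div_self_antitoneOn (show (1 + ε) * y ∈ {x : ℝ | Real.exp 1 ≤ x} by
        show Real.exp 1 ≤ (1 + ε) * y
        nlinarith) (show ℓ ∈ {x : ℝ | Real.exp 1 ≤ x} by
        show Real.exp 1 ≤ ℓ
        linarith) hN
      simp only at b2
      have b3 : Real.log ℓ = l2 := by rw [hℓ, hl2]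
      have b4 : Real.log ((1 + ε) * y) ≤ L + 1 := by
        rw [Real.log_mul (by positivity) hy0.ne', ← hL]
        have := Real.log_le_sub_one_of_pos (show (0 : ℝ) < 1 + ε by positivity)
        linarith
      rw [b3, div_le_div_iff₀ hℓ0 (by positivity)] at b2
      have b5 : l2 * ((1 + ε) * y) ≤ (L + 1) * ℓ := b2.trans (mul_le_mul_of_nonneg_right b4 hℓ0.le)
      have hl20 : 0 < l2 := by linarith
      have b6 : (t : ℝ) * l2 ≤ (1 + ε / 16) * (y / L) * l2 := mul_le_mul_of_nonneg_right ht2 hl20.le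
      refine b6.trans ?_
      -- `(1 + ε/16) (y / L) l2 ≤ (1 - ε/4) ℓ`
      have b7 : y * l2 ≤ (L + 1) * ℓ / (1 + ε) := by
        rw [le_div_iff₀ (by positivity)]
        linarith
      have b8 : (1 + ε / 16) * (y / L) * l2 = (1 + ε / 16) / L * (y * l2) := by ring
      rw [b8]
      have b9 : (1 + ε / 16) / L * (y * l2) ≤ (1 + ε / 16) / L * ((L + 1) * ℓ / (1 + ε)) :=
        mul_le_mul_of_nonneg_left b7 (by positivity)
      refine b9.trans ?_
      have b10 : (1 + ε / 16) / L * ((L + 1) * ℓ / (1 + ε)) = ((1 + ε / 16) * (L + 1)) / (L * (1 + ε)) * ℓ := by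
        field_simp
      rw [b10]
      apply mul_le_mul_of_nonneg_right _ hℓ0.le
      rw [div_le_iff₀ (by positivity)]
      -- `L ≥ 16 / ε` follows from `37 l3 / (ε / 16) ≤ L`
      have b11 : 16 ≤ ε * L := by
        rw [div_mul_eq_mul_div, div_le_iff₀ (by positivity)] at a4
        nlinarith
      nlinarith [mul_nonneg hε.le (sub_nonneg.2 hε1)])
    refine ⟨x, hx, ht1.trans ?_⟩
    rw [cnt_eq]
    have h4 : T'.card ≤ ((Ioc x (x + y)).filter (fun i => ω ∈ S i)).card := by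
      rw [← card_image_of_injective T' (f := fun h => x + h) (fun a b h => Nat.add_left_cancel h)]
      apply card_le_card
      intro n hn
      rw [mem_image] at hn
      obtain ⟨h, hh, rfl⟩ := hn
      have h5 := mem_Icc.1 (hTy (hT' hh))
      rw [mem_filter, mem_Ioc]
      exact ⟨by omega, (hxT h (hTy (hT' hh))).2 hh⟩
    rw [hT'c] at h4
    exact_mod_cast h4
  intro ε hε α hα
  rcases le_or_gt ε 1 with h | h
  · exact main ε hε h α hα
  · filter_upwards [main 1 one_pos le_rfl α hα] with y hy N hN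
    apply hy N
    refine le_trans ?_ hN
    apply mul_le_mul_of_nonneg_right (by linarith) (Nat.cast_nonneg _)

end Pool.Agent.T2H62.MS
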