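import Pool.Agent.T2H62.MS.B

set_option autoImplicit false

/-! # Concentration in all windows, and the windows far away -/

namespace Pool.Agent.T2H62.MS

open Finset Filter Topology MeasureTheory ProbabilityTheory
open Pool.Agent.T2H53.GW
open Pool.Agent.T2H62.MD
open Pool.Agent.H305R2 (VV VV_tendsto)

variable {Ω : Type*} [MeasurableSpace Ω] {μ : Measure Ω} [IsProbabilityMeasure μ] {S : ℕ → Set Ω}

/-- concentration -/
theorem conc (A : ℝ) (hm : ∀ n, MeasurableSet (S n)) (hi : iIndepSet S μ) (hp : ∀ n, μ.real (S n) = pr A n) :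
    ∀ᵐ ω ∂μ, ∀ᶠ y : ℕ in atTop, ∀ x : ℕ, Real.log x ≤ Real.sqrt y →
      cnt (Ioc x (x + y)) S ω ≤ ∑ n ∈ Ioc x (x + y), pr A n + (y : ℝ) ^ (5 / 6 : ℝ) := by
  classical
  have hT : Tendsto (fun n : ℕ => (n : ℝ)) atTop atTop := tendsto_natCast_atTop_atTop
  obtain ⟨X, hX⟩ : ∃ X : ℕ → Finset ℕ, X = fun y : ℕ => (range (⌊Real.exp (Real.sqrt y)⌋₊ + 1)) := ⟨_, rfl⟩
  obtain ⟨Bd, hBd⟩ : ∃ Bd : ℕ → Set Ω, Bd = fun y => ⋃ x ∈ X y,
      {ω | (y : ℝ) ^ (5 / 6 : ℝ) ≤ |cnt (Ioc x (x + y)) S ω - ∑ n ∈ Ioc x (x + y), μ.real (S n)|} := ⟨_, rfl⟩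
  have hprob : ∀ᶠ y : ℕ in atTop, μ.real (Bd y) ≤ 1 / (y : ℝ) ^ 2 := by
    -- `√y + 2 + 2 log y ≤ y ^ (2/3) / 4`
    have g1 : ∀ᶠ y : ℕ in atTop, Real.sqrt y + 2 + 2 * Real.log y ≤ (y : ℝ) ^ (2 / 3 : ℝ) / 4 := by
      filter_upwards [log_pow_small 1 32 (2 / 3) (by norm_num) (by norm_num), rpow_big 16 (1 / 6) (by norm_num),
        rpow_big 32 (2 / 3) (by norm_num), eventually_ge_atTop 1] with y h1 h2 h3 h4
      have hy0 : (0 : ℝ) < y := by exact_mod_cast h4
      rw [pow_one] at h1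
      have h5 : 16 * Real.sqrt y ≤ (y : ℝ) ^ (2 / 3 : ℝ) := by
        have h6 : (y : ℝ) ^ (2 / 3 : ℝ) = (y : ℝ) ^ (1 / 6 : ℝ) * Real.sqrt y := by
          rw [Real.sqrt_eq_rpow, ← Real.rpow_add hy0]
          norm_num
        rw [h6]
        exact mul_le_mul_of_nonneg_right h2.le (Real.sqrt_nonneg _)
      linarith
    filter_upwards [g1, eventually_ge_atTop 3] with y h1 h2
    have hy0 : (0 : ℝ) < y := by exact_mod_cast (by omega : 0 < y)
    have hy1 : (1 : ℝ) ≤ y := by exact_mod_cast (by omega : 1 ≤ y)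
    have hone : ∀ x ∈ X y, μ.real {ω | (y : ℝ) ^ (5 / 6 : ℝ) ≤ |cnt (Ioc x (x + y)) S ω - ∑ n ∈ Ioc x (x + y), μ.real (S n)|} ≤
        2 * Real.exp (-((y : ℝ) ^ (2 / 3 : ℝ) / 4)) := by
      intro x _
      have h3 : ∑ n ∈ Ioc x (x + y), μ.real (S n) ≤ y := by
        have h4 := sum_le_card_nsmul (Ioc x (x + y)) (fun n => μ.real (S n)) 1 (fun n _ => measureReal_le_one)
        rw [Nat.card_Ioc, nsmul_eq_mul, mul_one, show x + y - x = y by omega] at h4
        exact h4
      have h4 : (y : ℝ) ^ (5 / 6 : ℝ) ≤ y := by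
        calc (y : ℝ) ^ (5 / 6 : ℝ) ≤ (y : ℝ) ^ (1 : ℝ) := Real.rpow_le_rpow_of_exponent_le hy1 (by norm_num)
          _ = y := Real.rpow_one _
      refine (chernoff S hm hi (Ioc x (x + y)) y _ h3 (by positivity) h4 hy0).trans (le_of_eq ?_)
      congr 2
      rw [← Real.rpow_natCast, ← Real.rpow_mul hy0.le]
      have h5 : (y : ℝ) ^ ((5 / 6 : ℝ) * ((2 : ℕ) : ℝ)) = (y : ℝ) ^ (2 / 3 : ℝ) * y := by
        rw [← Real.rpow_add_one hy0.ne']
        norm_num
      rw [h5]
      field_simp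
    calc μ.real (Bd y) ≤ ∑ x ∈ X y, μ.real {ω | (y : ℝ) ^ (5 / 6 : ℝ) ≤
          |cnt (Ioc x (x + y)) S ω - ∑ n ∈ Ioc x (x + y), μ.real (S n)|} := by
          rw [hBd]
          exact measureReal_biUnion_finset_le _ _
      _ ≤ ∑ x ∈ X y, 2 * Real.exp (-((y : ℝ) ^ (2 / 3 : ℝ) / 4)) := sum_le_sum hone
      _ = ((X y).card : ℝ) * (2 * Real.exp (-((y : ℝ) ^ (2 / 3 : ℝ) / 4))) := by rw [sum_const, nsmul_eq_mul]
      _ ≤ (2 * Real.exp (Real.sqrt y)) * (2 * Real.exp (-((y : ℝ) ^ (2 / 3 : ℝ) / 4))) := by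
          apply mul_le_mul_of_nonneg_right _ (by positivity)
          rw [hX, card_range]
          push_cast
          have h5 : (⌊Real.exp (Real.sqrt y)⌋₊ : ℝ) ≤ Real.exp (Real.sqrt y) := Nat.floor_le (Real.exp_pos _).le
          have h6 : 1 ≤ Real.exp (Real.sqrt y) := Real.one_le_exp (Real.sqrt_nonneg _)
          linarith
      _ = 4 * Real.exp (Real.sqrt y - (y : ℝ) ^ (2 / 3 : ℝ) / 4) := by
          rw [sub_eq_add_neg, Real.exp_add]
          ring
      _ ≤ Real.exp 2 * Real.exp (Real.sqrt y - (y : ℝ) ^ (2 / 3 : ℝ) / 4) := by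
          apply mul_le_mul_of_nonneg_right _ (Real.exp_pos _).le
          have h8 : Real.exp 2 = Real.exp 1 * Real.exp 1 := by rw [← Real.exp_add]; norm_num
          have h7 := Real.exp_one_gt_d9
          rw [h8]
          nlinarith
      _ = Real.exp (Real.sqrt y + 2 - (y : ℝ) ^ (2 / 3 : ℝ) / 4) := by
          rw [← Real.exp_add]
          congr 1
          ring
      _ ≤ Real.exp (-(2 * Real.log y)) := Real.exp_le_exp.2 (by linarith)
      _ = 1 / (y : ℝ) ^ 2 := by
          rw [Real.exp_neg, one_div, mul_comm, Real.exp_mul, Real.exp_log hy0]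
          norm_num
  obtain ⟨n₀, hn₀⟩ := eventually_atTop.1 hprob
  have hsum : Summable (fun N : ℕ => 1 / (N : ℝ) ^ 2) := Real.summable_one_div_nat_pow.2 (by norm_num)
  have h2 := bc (μ := μ) Bd n₀ _ hsum (fun n hn => hn₀ n hn)
  filter_upwards [h2] with ω hω
  filter_upwards [hω] with y hy x hx
  by_contra h5
  push Not at h5
  apply hy
  rw [hBd]
  simp only [Set.mem_iUnion]
  refine ⟨x, ?_, ?_⟩
  · rw [hX, mem_range]
    apply Nat.lt_succ_of_le
    apply Nat.le_floor
    rcases Nat.eq_zero_or_pos x with h | h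
    · rw [h]
      simp only [Nat.cast_zero]
      exact (Real.exp_pos _).le
    · rw [← Real.log_le_iff_le_exp (by exact_mod_cast h)]
      exact hx
  · show (y : ℝ) ^ (5 / 6 : ℝ) ≤ |cnt (Ioc x (x + y)) S ω - ∑ n ∈ Ioc x (x + y), μ.real (S n)|
    have h6 : ∑ n ∈ Ioc x (x + y), μ.real (S n) = ∑ n ∈ Ioc x (x + y), pr A n := sum_congr rfl fun n _ => hp n
    rw [h6]
    refine le_trans ?_ (le_abs_self _)
    linarith

omit [MeasurableSpace Ω] in
/-- from short windows to long ones -/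
theorem cnt_split (ω : Ω) (L : ℕ) (hL : 0 < L) (B : ℝ) (hB : 0 ≤ B) (z : ℕ) : ∀ y x : ℕ, x + y ≤ z →
    (∀ x' : ℕ, x ≤ x' → x' ≤ z → cnt (Ioc x' (x' + L)) S ω ≤ B) → cnt (Ioc x (x + y)) S ω ≤ ((y : ℝ) / L + 1) * B := by
  have hL0 : (0 : ℝ) < L := by exact_mod_cast hL
  have hmono : ∀ a b c : ℕ, b ≤ c → cnt (Ioc a b) S ω ≤ cnt (Ioc a c) S ω := by
    intro a b c h
    unfold cnt
    exact sum_le_sum_of_subset_of_nonneg (Ioc_subset_Ioc_right h) fun _ _ _ => Set.indicator_nonneg (fun _ _ => zero_le_one) _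
  intro y
  induction y using Nat.strong_induction_on with
  | _ y ih =>
    intro x hx h
    rcases le_or_gt y L with h1 | h1
    · refine (hmono x (x + y) (x + L) (by omega)).trans ((h x le_rfl (by omega)).trans ?_)
      have : 0 ≤ (y : ℝ) / L := by positivity
      nlinarith
    · have h2 := ih (y - L) (by omega) (x + L) (by omega) (fun x' hx' hz => h x' (by omega) hz)
      have h3 := h x le_rfl (by omega)
      have h4 : cnt (Ioc x (x + y)) S ω = cnt (Ioc x (x + L)) S ω + cnt (Ioc (x + L) (x + L + (y - L))) S ω := by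
        unfold cnt
        rw [show x + L + (y - L) = x + y by omega]
        exact (sum_Ioc_consecutive _ (by omega) (by omega)).symm
      rw [h4]
      rw [Nat.cast_sub h1.le] at h2
      have h5 : (((y : ℝ) - L) / L + 1) * B + B = ((y : ℝ) / L + 1) * B := by
        field_simp
        ring
      linarith

/-- the windows far away -/
theorem far (A : ℝ) (hA : 0 < A) (hm : ∀ n, MeasurableSet (S n)) (hi : iIndepSet S μ) (hp : ∀ n, μ.real (S n) = pr A n) :
    ∀ᵐ ω ∂μ, ∀ ε : ℝ, 0 < ε → ε ≤ 1 → ∀ᶠ y : ℕ in atTop, ∀ x : ℕ, Real.sqrt y ≤ Real.log x →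
      Real.log x ≤ (1 - ε) * y → cnt (Ioc x (x + y)) S ω ≤ (1 - ε / 8) * (y / Real.log y) := by
  classical
  have hT : Tendsto (fun n : ℕ => (n : ℝ)) atTop atTop := tendsto_natCast_atTop_atTop
  have hLt : Tendsto (fun n : ℕ => Real.log (n : ℝ)) atTop atTop := Real.tendsto_log_atTop.comp hT
  have hSt : Tendsto (fun n : ℕ => Real.sqrt (n : ℝ)) atTop atTop := Real.tendsto_sqrt_atTop.comp hT
  filter_upwards [Pool.Agent.T2H62.ML.upper_all A hA hm hi hp] with ω hω ε hε hε1
  obtain ⟨η, hη⟩ : ∃ η : ℝ, η = ε / 32 := ⟨_, rfl⟩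
  obtain ⟨M, hM⟩ : ∃ M : ℝ, M = 8 / ε := ⟨_, rfl⟩
  have hη0 : 0 < η := by rw [hη]; positivity
  have hη1 : η ≤ 1 / 32 := by rw [hη]; linarith
  have hM0 : 0 < M := by rw [hM]; positivity
  obtain ⟨X₀, hX₀⟩ := eventually_atTop.1 (hω η hη0 M)
  filter_upwards [hSt.eventually_gt_atTop (Real.log X₀), hSt.eventually_ge_atTop 3,
    hSt.eventually_ge_atTop ((M + 1 + η) / (η * M)), hSt.eventually_ge_atTop (2 / M), log_pow_small 1 1 (1 / 2) (by norm_num) one_pos,
    rpow_big 32 (ε / 8) (by positivity), hT.eventually_ge_atTop (4 / ε), hT.eventually_ge_atTop 32, hLt.eventually_ge_atTop 1]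
    with y h1 h2 h3 h4 h5 h6 h7 h8 h9 x hx1 hx2
  obtain ⟨ℓ, hℓ⟩ : ∃ ℓ : ℝ, ℓ = Real.log x := ⟨_, rfl⟩
  rw [← hℓ] at hx1 hx2
  rw [pow_one, one_mul, ← Real.sqrt_eq_rpow] at h5
  have hy0 : (0 : ℝ) < y := by linarith
  have hℓ3 : 3 ≤ ℓ := h2.trans hx1
  have hx0 : 0 < x := by
    rcases Nat.eq_zero_or_pos x with h | h
    · rw [h] at hℓ
      simp at hℓ
      linarith
    · exact h
  have hx0r : (0 : ℝ) < x := by exact_mod_cast hx0
  have hxX : X₀ ≤ x := by
    by_contra h
    push Not at h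
    have h10 : Real.log x ≤ Real.log X₀ := Real.log_le_log hx0r (by exact_mod_cast h.le)
    rw [← hℓ] at h10
    linarith
  have hyx : (y : ℝ) ≤ x := by
    have h10 : Real.log y ≤ Real.log x := by rw [← hℓ]; exact h5.trans hx1
    exact (Real.log_le_log_iff hy0 hx0r).1 h10
  obtain ⟨L, hL⟩ : ∃ L : ℕ, L = ⌊M * ℓ⌋₊ := ⟨_, rfl⟩
  have hL1 : M * ℓ - 1 ≤ L := by
    have := Nat.lt_floor_add_one (M * ℓ)
    rw [← hL] at this
    linarith
  have hL2 : (L : ℝ) ≤ M * ℓ := by rw [hL]; exact Nat.floor_le (by positivity)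
  have hMℓ : 2 ≤ M * ℓ := by
    rw [div_le_iff₀ hM0] at h4
    have := mul_le_mul_of_nonneg_left hx1 hM0.le
    linarith
  have hL0 : 0 < L := by
    have : (0 : ℝ) < L := by linarith
    exact_mod_cast this
  have hL0r : (0 : ℝ) < L := by exact_mod_cast hL0
  have hlog3 : 1 ≤ Real.log ℓ := by
    rw [Real.le_log_iff_exp_le (by linarith)]
    have := Real.exp_one_lt_d9
    linarith
  obtain ⟨B, hB⟩ : ∃ B : ℝ, B = (1 + η) * (ℓ + 1) / Real.log ℓ := ⟨_, rfl⟩
  have hB0 : 0 ≤ B := by rw [hB]; positivity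
  have hpiece : ∀ x' : ℕ, x ≤ x' → x' ≤ x + y → cnt (Ioc x' (x' + L)) S ω ≤ B := by
    intro x' a1 a2
    have a3 : ℓ ≤ Real.log x' := by rw [hℓ]; exact Real.log_le_log hx0r (by exact_mod_cast a1)
    have a4 : Real.log x' ≤ ℓ + 1 := by
      have b1 : (x' : ℝ) ≤ 2 * x := by
        have : (x' : ℝ) ≤ x + y := by exact_mod_cast a2
        linarith
      have b2 := Real.log_le_log (by exact_mod_cast (by omega : 0 < x')) b1
      rw [Real.log_mul (by norm_num) hx0r.ne', ← hℓ] at b2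
      have := Real.log_two_lt_d9
      linarith
    have a5 : Real.log ℓ ≤ Real.log (Real.log x') := Real.log_le_log (by linarith) a3
    have a6 := hX₀ x' (by omega) ((Icc 1 L).filter (fun u => ω ∈ S (x' + u))) (fun u hu => by
      have b1 := mem_Icc.1 (mem_filter.1 hu).1
      refine ⟨b1.1, ?_⟩
      have b2 : (u : ℝ) ≤ L := by exact_mod_cast b1.2
      exact b2.trans (hL2.trans (mul_le_mul_of_nonneg_left a3 hM0.le))) (fun u hu => (mem_filter.1 hu).2)
    have a7 : cnt (Ioc x' (x' + L)) S ω = (((Icc 1 L).filter (fun u => ω ∈ S (x' + u))).card : ℝ) := by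
      rw [cnt_eq]
      congr 1
      symm
      apply card_bij' (i := fun h _ => x' + h) (j := fun n _ => n - x')
      · intro h hh
        rw [mem_filter, mem_Icc] at hh
        rw [mem_filter, mem_Ioc]
        exact ⟨by omega, hh.2⟩
      · intro n hn
        rw [mem_filter, mem_Ioc] at hn
        rw [mem_filter, mem_Icc]
        refine ⟨by omega, ?_⟩
        have : x' + (n - x') = n := by omega
        rw [this]
        exact hn.2
      · intro h hh
        show x' + h - x' = h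
        omega
      · intro n hn
        rw [mem_filter, mem_Ioc] at hn
        show x' + (n - x') = n
        omega
    rw [← a7] at a6
    rw [hB, le_div_iff₀ (by linarith)]
    have a8 : 0 ≤ cnt (Ioc x' (x' + L)) S ω := by rw [a7]; positivity
    calc cnt (Ioc x' (x' + L)) S ω * Real.log ℓ ≤ cnt (Ioc x' (x' + L)) S ω * Real.log (Real.log x') :=
          mul_le_mul_of_nonneg_left a5 a8
      _ ≤ (1 + η) * Real.log x' := a6
      _ ≤ (1 + η) * (ℓ + 1) := mul_le_mul_of_nonneg_left a4 (by linarith)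
  refine (cnt_split ω L hL0 B hB0 (x + y) y x le_rfl hpiece).trans ?_
  -- the total
  have hr : (ℓ + 1) / L ≤ (1 + η) / M := by
    rw [div_le_div_iff₀ hL0r hM0]
    rw [div_le_iff₀ (by positivity)] at h3
    have b1 : M + 1 + η ≤ ℓ * (η * M) := h3.trans (mul_le_mul_of_nonneg_right hx1 (by positivity))
    have b2 : (1 + η) * (M * ℓ - 1) ≤ (1 + η) * L := mul_le_mul_of_nonneg_left hL1 (by linarith)
    nlinarith
  have htot : ((y : ℝ) / L + 1) * B ≤ (1 + η) * ((1 + η) * (ε / 8) * y + ℓ + 1) / Real.log ℓ := by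
    rw [hB, ← mul_div_assoc]
    apply div_le_div_of_nonneg_right _ (by linarith)
    have b1 : (1 + η) / M = (1 + η) * (ε / 8) := by
      rw [hM]
      field_simp
    rw [b1] at hr
    have b2 : ((y : ℝ) / L + 1) * ((1 + η) * (ℓ + 1)) = (1 + η) * ((ℓ + 1) / L * y + ℓ + 1) := by
      ring
    rw [b2]
    apply mul_le_mul_of_nonneg_left _ (by linarith)
    have b3 := mul_le_mul_of_nonneg_right hr hy0.le
    linarith
  refine htot.trans ?_
  have hly : 0 < Real.log y := by linarith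
  rcases le_or_gt ((y : ℝ) ^ (1 - ε / 8)) ℓ with hc | hc
  · -- `log x` close to `y`
    have b1 : (1 - ε / 8) * Real.log y ≤ Real.log ℓ := by
      have := Real.log_le_log (by positivity) hc
      rwa [Real.log_rpow hy0] at this
    have b2 : 0 < (1 - ε / 8) * Real.log y := by
      apply mul_pos (by linarith) hly
    calc (1 + η) * ((1 + η) * (ε / 8) * y + ℓ + 1) / Real.log ℓ
        ≤ (1 + η) * ((1 + η) * (ε / 8) * y + ℓ + 1) / ((1 - ε / 8) * Real.log y) := by
          apply div_le_div_of_nonneg_left (by positivity) b2 b1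
      _ ≤ ((1 - ε / 8) ^ 2 * y) / ((1 - ε / 8) * Real.log y) := by
          apply div_le_div_of_nonneg_right _ b2.le
          rw [div_le_iff₀ hε] at h7
          have c1 : (1 + η) * ((1 + η) * (ε / 8) * y + ℓ + 1) ≤ (1 + η) * ((1 + η) * (ε / 8) * y + (1 - ε) * y + ε * y / 4) := by
            apply mul_le_mul_of_nonneg_left _ (by linarith)
            linarith
          refine c1.trans ?_
          have c2 : (1 + η) * ((1 + η) * (ε / 8) * y + (1 - ε) * y + ε * y / 4) =
              ((1 + η) * ((1 + η) * (ε / 8) + (1 - ε) + ε / 4)) * y := by ring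
          rw [c2]
          apply mul_le_mul_of_nonneg_right _ hy0.le
          rw [hη]
          nlinarith [mul_pos hε hε, mul_nonneg hε.le (sub_nonneg.2 hε1), mul_nonneg (mul_nonneg hε.le hε.le) (sub_nonneg.2 hε1)]
      _ = (1 - ε / 8) * (y / Real.log y) := by
          have : (1 - ε / 8) ≠ 0 := by linarith
          field_simp
  · -- `log x` small
    have b1 : 1 / 2 * Real.log y ≤ Real.log ℓ := by
      have := Real.log_le_log (Real.sqrt_pos.2 hy0) hx1
      rw [Real.log_sqrt hy0.le] at this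
      linarith
    have b3 : (y : ℝ) ^ (1 - ε / 8) ≤ y / 32 := by
      rw [le_div_iff₀ (by norm_num)]
      calc (y : ℝ) ^ (1 - ε / 8) * 32 ≤ (y : ℝ) ^ (1 - ε / 8) * (y : ℝ) ^ (ε / 8) :=
            mul_le_mul_of_nonneg_left h6.le (by positivity)
        _ = y := by
            rw [← Real.rpow_add hy0]
            norm_num
    calc (1 + η) * ((1 + η) * (ε / 8) * y + ℓ + 1) / Real.log ℓ
        ≤ (1 + η) * ((1 + η) * (ε / 8) * y + ℓ + 1) / (1 / 2 * Real.log y) := by
          apply div_le_div_of_nonneg_left (by positivity) (by positivity) b1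
      _ ≤ (7 / 16 * y) / (1 / 2 * Real.log y) := by
          apply div_le_div_of_nonneg_right _ (by positivity)
          have c1 : (1 + η) * ((1 + η) * (ε / 8) * y + ℓ + 1) ≤ (1 + η) * ((1 + η) * (ε / 8) * y + y / 32 + y / 32) := by
            apply mul_le_mul_of_nonneg_left _ (by linarith)
            linarith
          refine c1.trans ?_
          have c2 : (1 + η) * ((1 + η) * (ε / 8) * y + y / 32 + y / 32) = ((1 + η) * ((1 + η) * (ε / 8) + 1 / 16)) * y := by ring
          rw [c2]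
          apply mul_le_mul_of_nonneg_right _ hy0.le
          have c3 : (1 + η) * (ε / 8) ≤ 33 / 32 * (1 / 8) := mul_le_mul (by linarith) (by linarith) (by positivity) (by norm_num)
          nlinarith
      _ = 7 / 8 * (y / Real.log y) := by
          field_simp
          ring
      _ ≤ (1 - ε / 8) * (y / Real.log y) := mul_le_mul_of_nonneg_right (by linarith) (by positivity)

end Pool.Agent.T2H62.MS
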