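import Pool.Agent.T2H62.ML.Y
import Pool.Agent.T2H62.MD.I
import Pool.Agent.T2H62.MD.N

set_option autoImplicit false

/-! # Means: precise lower bound for the counting function and upper bounds for all windows -/

namespace Pool.Agent.T2H62.MS

open Finset Filter Topology MeasureTheory ProbabilityTheory
open Pool.Agent.T2H53.GW
open Pool.Agent.T2H62.MD
open Pool.Agent.H305R2 (VV VV_tendsto)

/-- the error term of Legendre's sieve is smaller than every power -/
theorem err_gen (A : ℝ) (hA : 0 < A) (e : ℝ) (he : 0 < e) : ∀ᶠ x : ℕ in atTop,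
    ((⌊A * Real.log x⌋₊ : ℝ) + 1) * (VV ⌊A * Real.log x⌋₊ * 2 ^ (PJ ⌊A * Real.log x⌋₊).card) ≤ (x : ℝ) ^ e := by
  have hT : Tendsto (fun n : ℕ => (n : ℝ)) atTop atTop := tendsto_natCast_atTop_atTop
  have hJ : Tendsto (fun x : ℕ => ⌊A * Real.log x⌋₊) atTop atTop :=
    tendsto_nat_floor_atTop.comp ((Real.tendsto_log_atTop.comp hT).const_mul_atTop hA)
  obtain ⟨δ, hδd⟩ : ∃ δ : ℝ, δ = e / (4 * A) := ⟨_, rfl⟩
  have hδ : 0 < δ := by rw [hδd]; positivity
  filter_upwards [hJ.eventually (pi_small δ hδ), log_pow_small 1 (A + 1) (e / 2) (by positivity) (by positivity),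
    eventually_ge_atTop 3] with x h1 h2 h3
  obtain ⟨j, hj⟩ : ∃ j, j = ⌊A * Real.log x⌋₊ := ⟨_, rfl⟩
  rw [← hj] at h1 ⊢
  have hx0 : (0 : ℝ) < x := by exact_mod_cast (by omega : 0 < x)
  have hl : 1 ≤ Real.log x := by
    have h3' : (3 : ℝ) ≤ x := by exact_mod_cast h3
    rw [Real.le_log_iff_exp_le hx0]
    have := Real.exp_one_lt_d9
    linarith
  have hjA : (j : ℝ) ≤ A * Real.log x := by
    rw [hj]
    exact Nat.floor_le (by positivity)
  have a1 : (j : ℝ) + 1 ≤ (x : ℝ) ^ (e / 2) := by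
    rw [pow_one] at h2
    nlinarith
  have a2 : VV j * 2 ^ (PJ j).card ≤ (x : ℝ) ^ (e / 2) := by
    have h4 : VV j * 2 ^ (PJ j).card ≤ (4 : ℝ) ^ (PJ j).card := by
      have h5 := mul_le_mul_of_nonneg_right (VV_le j) (show (0 : ℝ) ≤ 2 ^ (PJ j).card by positivity)
      rw [← mul_pow] at h5
      norm_num at h5
      exact h5
    have h5 : (4 : ℝ) ^ (PJ j).card ≤ Real.exp (2 * (PJ j).card) := by
      have h6 : (4 : ℝ) ≤ Real.exp 2 := by
        have h8 : Real.exp 2 = Real.exp 1 * Real.exp 1 := by rw [← Real.exp_add]; norm_num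
        have h7 := Real.exp_one_gt_d9
        rw [h8]
        nlinarith
      calc (4 : ℝ) ^ (PJ j).card ≤ (Real.exp 2) ^ (PJ j).card := pow_le_pow_left₀ (by norm_num) h6 _
        _ = Real.exp (2 * (PJ j).card) := by
            rw [← Real.exp_nat_mul, mul_comm]
    have h6 : 2 * ((PJ j).card : ℝ) ≤ e / 2 * Real.log x := by
      have h7 : 2 * ((PJ j).card : ℝ) ≤ 2 * (δ * (A * Real.log x)) := by
        have := mul_le_mul_of_nonneg_left hjA hδ.le
        linarith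
      have h8 : 2 * (δ * (A * Real.log x)) = e / 2 * Real.log x := by
        rw [hδd]
        field_simp
        ring
      linarith
    calc VV j * 2 ^ (PJ j).card ≤ Real.exp (2 * (PJ j).card) := h4.trans h5
      _ ≤ Real.exp (e / 2 * Real.log x) := Real.exp_le_exp.2 h6
      _ = (x : ℝ) ^ (e / 2) := by
          rw [Real.rpow_def_of_pos hx0, mul_comm]
  calc ((j : ℝ) + 1) * (VV j * 2 ^ (PJ j).card) ≤ (x : ℝ) ^ (e / 2) * (x : ℝ) ^ (e / 2) := by
        apply mul_le_mul a1 a2 _ (by positivity)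
        have := one_le_VV j
        positivity
    _ = (x : ℝ) ^ e := by
        rw [← Real.rpow_add hx0]
        ring_nf

/-- the probabilities of large integers -/
theorem pr_ge_block {A : ℝ} (hA : 0 < A) : ∃ a₀ : ℕ, 2 ≤ a₀ ∧ ∀ n j : ℕ, a₀ < n → ⌊A * Real.log n⌋₊ = j →
    ∀ [Decidable (∀ p ∈ PJ j, ¬ p ∣ n)], (if ∀ p ∈ PJ j, ¬ p ∣ n then VV j else 0) * (1 / Real.log n) ≤ pr A n := by
  classical
  have hT : Tendsto (fun n : ℕ => (n : ℝ)) atTop atTop := tendsto_natCast_atTop_atTop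
  have hL : Tendsto (fun n : ℕ => Real.log (n : ℝ)) atTop atTop := Real.tendsto_log_atTop.comp hT
  have hJ : Tendsto (fun x : ℕ => ⌊A * Real.log x⌋₊) atTop atTop :=
    tendsto_nat_floor_atTop.comp (hL.const_mul_atTop hA)
  have h1 := VV_tendsto.eventually (eventually_lt_nhds (show Real.exp Real.eulerMascheroniConstant < 2 by
    have := GG_lt_two
    unfold GG at this
    exact this))
  have h0 : ∀ᶠ y : ℝ in atTop, 2 * Real.log (A * y) ≤ y := by
    have h3 := Real.isLittleO_log_id_atTop.bound (show (0 : ℝ) < 1 / 4 by positivity)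
    filter_upwards [h3, eventually_ge_atTop 1, eventually_ge_atTop (4 * Real.log A)] with y hy hy1 hy2
    rw [Real.norm_eq_abs, Real.norm_eq_abs, id, abs_of_nonneg (by linarith : (0 : ℝ) ≤ y)] at hy
    have := (le_abs_self _).trans hy
    rw [Real.log_mul hA.ne' (by linarith)]
    linarith
  have h2 : ∀ᶠ n : ℕ in atTop, VV ⌊A * Real.log n⌋₊ ≤ Real.log n := by
    filter_upwards [hJ.eventually h1, hJ.eventually_ge_atTop 3, hL.eventually h0, hL.eventually_ge_atTop 1] with n a1 a2 a3 a4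
    obtain ⟨j, hj⟩ : ∃ j, j = ⌊A * Real.log n⌋₊ := ⟨_, rfl⟩
    rw [← hj] at a1 a2 ⊢
    have hj3 : (3 : ℝ) ≤ j := by exact_mod_cast a2
    have hlj : 0 < Real.log (j : ℝ) := Real.log_pos (by linarith)
    rw [div_lt_iff₀ hlj] at a1
    have hjA : (j : ℝ) ≤ A * Real.log n := by
      rw [hj]
      exact Nat.floor_le (by positivity)
    have h5 := Real.log_le_log (by linarith) hjA
    linarith
  obtain ⟨a₀, ha₀⟩ := eventually_atTop.1 (h2.and (hL.eventually_ge_atTop 1))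
  refine ⟨max a₀ 2, le_max_right _ _, fun n j hn hj _ => ?_⟩
  obtain ⟨h3, h4⟩ := ha₀ n (le_of_lt (lt_of_le_of_lt (le_max_left _ _) hn))
  have hlog0 : 0 < Real.log (n : ℝ) := by linarith
  have hiff : (∀ p : ℕ, p.Prime → (p : ℝ) ≤ A * Real.log n → ¬ p ∣ n) ↔ ∀ p ∈ PJ j, ¬ p ∣ n := by
    constructor
    · intro h p hp
      unfold PJ at hp
      rw [mem_filter, mem_Icc] at hp
      apply h p hp.2
      have h5 : (p : ℝ) ≤ j := by exact_mod_cast hp.1.2
      refine h5.trans ?_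
      rw [← hj]
      exact Nat.floor_le (by positivity)
    · intro h p hpp hp
      apply h
      unfold PJ
      rw [mem_filter, mem_Icc]
      refine ⟨⟨hpp.one_lt.le, ?_⟩, hpp⟩
      rw [← hj]
      exact Nat.le_floor hp
  unfold pr
  by_cases h : ∀ p ∈ PJ j, ¬ p ∣ n
  · rw [if_pos h, if_pos (hiff.2 h), hj]
    apply le_min
    · rw [hj] at h3
      rw [mul_one_div, div_le_one hlog0]
      exact h3
    · unfold VV
      rw [mul_one_div]
  · rw [if_neg h, if_neg (fun h' => h (hiff.1 h')), zero_mul]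

/-- one block, lower bound -/
theorem block_low {A : ℝ} {a₀ : ℕ} (ha₀ : 2 ≤ a₀) (h : ∀ n j : ℕ, a₀ < n → ⌊A * Real.log n⌋₊ = j →
    ∀ [Decidable (∀ p ∈ PJ j, ¬ p ∣ n)], (if ∀ p ∈ PJ j, ¬ p ∣ n then VV j else 0) * (1 / Real.log n) ≤ pr A n)
    (a b j : ℕ) (ha : a₀ ≤ a) (hab : a < b) (hj : ∀ n ∈ Ioc a b, ⌊A * Real.log n⌋₊ = j) :
    ∑ n ∈ Ioc a b, 1 / Real.log n - VV j * 2 ^ (PJ j).card ≤ ∑ n ∈ Ioc a b, pr A n := by
  classical
  obtain ⟨g, hg⟩ : ∃ g : ℕ → ℝ, g = fun n => (if ∀ p ∈ PJ j, ¬ p ∣ n then VV j else 0) := ⟨_, rfl⟩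
  have hVV : 0 ≤ VV j := by linarith [one_le_VV j]
  have hlog : ∀ n : ℕ, a < n → 1 ≤ Real.log n := by
    intro n hn
    have h3 : (3 : ℝ) ≤ n := by exact_mod_cast (by omega : 3 ≤ n)
    rw [Real.le_log_iff_exp_le (by linarith)]
    have := Real.exp_one_lt_d9
    linarith
  have h1 : ∑ n ∈ Ioc a b, g n * (1 / Real.log n) ≤ ∑ n ∈ Ioc a b, pr A n := by
    refine sum_le_sum fun n hn => ?_
    rw [hg]
    exact h n j (lt_of_le_of_lt ha (mem_Ioc.1 hn).1) (hj n hn)
  have h2 : ∑ n ∈ Ioc a b, (1 - g n) * (1 / Real.log n) ≤ (VV j * 2 ^ (PJ j).card) * (1 / Real.log ((a + 1 : ℕ) : ℝ)) := by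
    refine abel (fun n => 1 - g n) (fun n => 1 / Real.log n) _ a b hab ?_ ?_ ?_
    · intro m hm _
      rw [sum_sub_distrib, sum_const, Nat.card_Ioc, nsmul_eq_mul, mul_one]
      have h3 : ∑ n ∈ Ioc a m, g n = VV j * NP (PJ j) a m := by
        rw [hg]
        unfold NP
        rw [← sum_filter, sum_const, nsmul_eq_mul, mul_comm]
      rw [h3]
      have h4 := leg (PJ j) (fun p hp => PJ_prime hp) a m
      rw [max_eq_right hm.le] at h4
      have h5 := (abs_le.1 h4).1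
      have h6 : (((m : ℕ) : ℝ) - a) * ∏ p ∈ PJ j, (1 - (p : ℝ)⁻¹) - 2 ^ (PJ j).card ≤ (NP (PJ j) a m : ℝ) := by linarith
      have h7 := mul_le_mul_of_nonneg_left h6 hVV
      have h8 : VV j * ((((m : ℕ) : ℝ) - a) * ∏ p ∈ PJ j, (1 - (p : ℝ)⁻¹) - 2 ^ (PJ j).card) =
          (((m : ℕ) : ℝ) - a) * (VV j * ∏ p ∈ PJ j, (1 - (p : ℝ)⁻¹)) - VV j * 2 ^ (PJ j).card := by ring
      rw [h8, VV_mul, mul_one] at h7
      rw [Nat.cast_sub hm.le]
      linarith
    · intro n hn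
      have h3 := hlog n hn
      apply one_div_le_one_div_of_le (by linarith)
      apply Real.log_le_log
      · have : 0 < n := by omega
        exact_mod_cast this
      · push_cast; linarith
    · intro n hn
      have := hlog n hn
      positivity
  have h3 : (VV j * 2 ^ (PJ j).card) * (1 / Real.log ((a + 1 : ℕ) : ℝ)) ≤ VV j * 2 ^ (PJ j).card := by
    apply mul_le_of_le_one_right (by positivity)
    have := hlog (a + 1) (by omega)
    rw [div_le_one (by linarith)]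
    exact this
  have h4 : ∑ n ∈ Ioc a b, g n * (1 / Real.log n) = ∑ n ∈ Ioc a b, 1 / Real.log n -
      ∑ n ∈ Ioc a b, (1 - g n) * (1 / Real.log n) := by
    rw [← sum_sub_distrib]
    exact sum_congr rfl fun n _ => by ring
  linarith

/-- all blocks, lower bound -/
theorem blocks_low (A : ℝ) (hA : 0 < A) : ∃ a₀ : ℕ, 2 ≤ a₀ ∧ ∀ a x : ℕ, a₀ ≤ a → 1 ≤ x →
    ∑ n ∈ Ioc a x, 1 / Real.log n -
      ((⌊A * Real.log x⌋₊ : ℝ) + 1) * (VV ⌊A * Real.log x⌋₊ * 2 ^ (PJ ⌊A * Real.log x⌋₊).card) ≤ ∑ n ∈ Ioc a x, pr A n := by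
  classical
  obtain ⟨a₀, ha₀, hpr⟩ := pr_ge_block hA
  refine ⟨a₀, ha₀, fun a x ha hx => ?_⟩
  obtain ⟨g, hg⟩ : ∃ g : ℕ → ℕ, g = fun n : ℕ => ⌊A * Real.log n⌋₊ := ⟨_, rfl⟩
  have hgm : ∀ m n : ℕ, a < m → m ≤ n → g m ≤ g n := by
    intro m n hm hmn
    rw [hg]
    apply Nat.floor_le_floor
    apply mul_le_mul_of_nonneg_left _ hA.le
    apply Real.log_le_log
    · have : 0 < m := by omega
      exact_mod_cast this
    · exact_mod_cast hmn
  obtain ⟨J, hJ⟩ : ∃ J, J = ⌊A * Real.log x⌋₊ := ⟨_, rfl⟩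
  have hmaps : ∀ n ∈ Ioc a x, g n ∈ range (J + 1) := by
    intro n hn
    rw [mem_Ioc] at hn
    rw [mem_range]
    have h1 := hgm n x hn.1 hn.2
    have h2 : g x = J := by rw [hg, hJ]
    omega
  rw [← sum_fiberwise_of_maps_to hmaps (f := fun n : ℕ => pr A n), ← sum_fiberwise_of_maps_to hmaps (f := fun n : ℕ => 1 / Real.log (n : ℝ)), ← hJ]
  have hblock : ∀ j ∈ range (J + 1), ∑ n ∈ (Ioc a x).filter (fun n => g n = j), 1 / Real.log (n : ℝ) ≤
      ∑ n ∈ (Ioc a x).filter (fun n => g n = j), pr A n + VV J * 2 ^ (PJ J).card := by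
    intro j hj
    rw [mem_range] at hj
    have hVV : 0 ≤ VV J := by linarith [one_le_VV J]
    by_cases hne : ((Ioc a x).filter (fun n => g n = j)).Nonempty
    · obtain ⟨u, v, hu, huv, he⟩ := fibre g a x j hgm hne
      have h1 := block_low ha₀ hpr u v j (by omega) huv (by
        intro n hn
        rw [← he, mem_filter] at hn
        have := hn.2
        rw [hg] at this
        exact this)
      rw [he]
      have h2 : VV j * 2 ^ (PJ j).card ≤ VV J * 2 ^ (PJ J).card := by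
        apply mul_le_mul (VV_mono (by omega)) _ (by positivity) hVV
        exact pow_le_pow_right₀ (by norm_num) (PJ_mono (by omega))
      linarith
    · rw [not_nonempty_iff_eq_empty] at hne
      rw [hne]
      simp only [sum_empty]
      positivity
  have h1 := sum_le_sum hblock
  rw [sum_add_distrib, sum_const, card_range, nsmul_eq_mul] at h1
  push_cast at h1
  linarith

variable {Ω : Type*} [MeasurableSpace Ω] {μ : Measure Ω} [IsProbabilityMeasure μ] {S : ℕ → Set Ω}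

/-- the counting function, precise lower bound -/
theorem count_low (A : ℝ) (hA : 0 < A) (hm : ∀ n, MeasurableSet (S n)) (hi : iIndepSet S μ)
    (hp : ∀ n, μ.real (S n) = pr A n) :
    ∀ᵐ ω ∂μ, ∀ᶠ y : ℕ in atTop, ∑ n ∈ Ioc 2 y, 1 / Real.log n - 42 * (y : ℝ) ^ (3 / 4 : ℝ) ≤ cnt (Ioc 0 y) S ω := by
  obtain ⟨a₀, ha₀, hlow⟩ := blocks_low A hA
  filter_upwards [count_near A hm hi hp] with ω hω
  filter_upwards [hω, err_gen A hA (1 / 4) (by norm_num), eventually_ge_atTop (a₀ + 1),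
    rpow_big ((a₀ : ℝ)) (3 / 4) (by norm_num)] with y h1 h2 h3 h4
  have h5 := (abs_le.1 h1).1
  have h6 := hlow a₀ y le_rfl (by omega)
  have hy1 : (1 : ℝ) ≤ y := by exact_mod_cast (by omega : 1 ≤ y)
  have h7 : (y : ℝ) ^ (1 / 4 : ℝ) ≤ (y : ℝ) ^ (3 / 4 : ℝ) := Real.rpow_le_rpow_of_exponent_le hy1 (by norm_num)
  have h8 : ∑ n ∈ Ioc a₀ y, pr A n ≤ ∑ n ∈ Ioc 0 y, pr A n :=
    sum_le_sum_of_subset_of_nonneg (Ioc_subset_Ioc_left (by omega)) fun n _ _ => pr_nonneg A n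
  have h9 : ∑ n ∈ Ioc 2 y, 1 / Real.log (n : ℝ) = ∑ n ∈ Ioc 2 a₀, 1 / Real.log (n : ℝ) + ∑ n ∈ Ioc a₀ y, 1 / Real.log (n : ℝ) :=
    (sum_Ioc_consecutive _ (by omega) (by omega)).symm
  have h10 : ∑ n ∈ Ioc 2 a₀, 1 / Real.log (n : ℝ) ≤ a₀ := by
    have h11 : ∀ n ∈ Ioc 2 a₀, 1 / Real.log (n : ℝ) ≤ 1 := by
      intro n hn
      rw [mem_Ioc] at hn
      have h3 : (3 : ℝ) ≤ n := by exact_mod_cast hn.1
      have h12 : 1 ≤ Real.log (n : ℝ) := by
        rw [Real.le_log_iff_exp_le (by linarith)]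
        have := Real.exp_one_lt_d9
        linarith
      rw [div_le_one (by linarith)]
      exact h12
    have h12 := sum_le_card_nsmul (Ioc 2 a₀) (fun n => 1 / Real.log (n : ℝ)) 1 h11
    rw [Nat.card_Ioc, nsmul_eq_mul, mul_one] at h12
    refine h12.trans ?_
    exact_mod_cast Nat.sub_le _ _
  linarith

end Pool.Agent.T2H62.MS
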