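import Pool.Agent.T2H62.MS.A

set_option autoImplicit false

/-! # Upper bounds for the means of the windows -/

namespace Pool.Agent.T2H62.MS

open Finset Filter Topology MeasureTheory ProbabilityTheory
open Pool.Agent.T2H53.GW
open Pool.Agent.T2H62.MD
open Pool.Agent.H305R2 (VV VV_tendsto)

theorem log_ge_one {n : ℕ} (hn : 3 ≤ n) : 1 ≤ Real.log n := by
  have h3 : (3 : ℝ) ≤ n := by exact_mod_cast hn
  rw [Real.le_log_iff_exp_le (by linarith)]
  have := Real.exp_one_lt_d9
  linarith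

theorem sum_shift (f : ℕ → ℝ) (x y : ℕ) : ∑ n ∈ Ioc x (x + y), f n = ∑ i ∈ Ioc 0 y, f (x + i) := by
  have h : Ioc x (x + y) = (Ioc 0 y).image (fun i => x + i) := by
    ext n
    simp only [mem_Ioc, mem_image]
    constructor
    · rintro ⟨h1, h2⟩
      exact ⟨n - x, ⟨by omega, by omega⟩, by omega⟩
    · rintro ⟨m, ⟨h1, h2⟩, rfl⟩
      exact ⟨by omega, by omega⟩
  rw [h, sum_image (fun a _ b _ h => Nat.add_left_cancel h)]

/-- the gain of the initial interval over the next one -/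
theorem diff_low : ∀ᶠ y : ℕ in atTop,
    ∑ i ∈ Ioc 0 y, 1 / Real.log ((y + i : ℕ) : ℝ) + y / (4 * Real.log y ^ 2) ≤ ∑ n ∈ Ioc 2 y, 1 / Real.log (n : ℝ) := by
  filter_upwards [eventually_ge_atTop 3, log_pow_small 2 36 1 one_pos (by norm_num)] with y hy hy2
  rw [Real.rpow_one] at hy2
  obtain ⟨L, hL⟩ : ∃ L : ℝ, L = Real.log y := ⟨_, rfl⟩
  have hL1 : 1 ≤ L := by rw [hL]; exact log_ge_one hy
  rw [← hL] at hy2 ⊢
  have hy0 : (0 : ℝ) < y := by exact_mod_cast (by omega : 0 < y)
  have hln2 := Real.log_two_gt_d9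
  have hln2' := Real.log_two_lt_d9
  have h1 : ∑ i ∈ Ioc 0 y, 1 / Real.log ((y + i : ℕ) : ℝ) = ∑ i ∈ Ioc 0 2, 1 / Real.log ((y + i : ℕ) : ℝ) +
      ∑ i ∈ Ioc 2 y, 1 / Real.log ((y + i : ℕ) : ℝ) := (sum_Ioc_consecutive _ (by omega) (by omega)).symm
  have h2 : ∑ i ∈ Ioc 0 2, 1 / Real.log ((y + i : ℕ) : ℝ) ≤ 2 := by
    have h3 := sum_le_card_nsmul (Ioc 0 2) (fun i => 1 / Real.log ((y + i : ℕ) : ℝ)) 1 (fun i _ => by
      have := log_ge_one (n := y + i) (by omega)
      rw [div_le_one (by linarith)]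
      exact this)
    simpa using h3
  have h3 : ∀ i ∈ Ioc 2 y, 1 / Real.log ((y + i : ℕ) : ℝ) + 1 / (3 * L ^ 2) ≤ 1 / Real.log (i : ℝ) := by
    intro i hi
    rw [mem_Ioc] at hi
    have hi0 : (0 : ℝ) < i := by exact_mod_cast (by omega : 0 < i)
    have hiy : (i : ℝ) ≤ y := by exact_mod_cast hi.2
    obtain ⟨a, ha⟩ : ∃ a : ℝ, a = Real.log i := ⟨_, rfl⟩
    obtain ⟨b, hb⟩ : ∃ b : ℝ, b = Real.log ((y + i : ℕ) : ℝ) := ⟨_, rfl⟩
    have ha1 : 1 ≤ a := by rw [ha]; exact log_ge_one (by omega)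
    have haL : a ≤ L := by rw [ha, hL]; exact Real.log_le_log hi0 hiy
    have hab : a + Real.log 2 ≤ b := by
      rw [ha, hb, ← Real.log_mul hi0.ne' (by norm_num)]
      apply Real.log_le_log (by positivity)
      push_cast
      linarith
    have hbL : b ≤ 2 * L := by
      have h4 : b ≤ L + Real.log 2 := by
        rw [hb, hL, ← Real.log_mul hy0.ne' (by norm_num)]
        apply Real.log_le_log
        · push_cast; linarith
        · push_cast; linarith
      linarith
    rw [← ha, ← hb]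
    have hb0 : 0 < b := by linarith
    have h4 : 1 / a - 1 / b = (b - a) / (a * b) := by
      field_simp
    have h5 : (2 / 3 : ℝ) / (L * (2 * L)) ≤ (b - a) / (a * b) := by
      apply div_le_div₀ (by linarith) (by linarith) (by positivity)
      exact mul_le_mul haL hbL hb0.le (by linarith)
    have h6 : (2 / 3 : ℝ) / (L * (2 * L)) = 1 / (3 * L ^ 2) := by
      field_simp
    rw [h6, ← h4] at h5
    linarith
  have h4 := sum_le_sum h3
  rw [sum_add_distrib, sum_const, Nat.card_Ioc, nsmul_eq_mul, Nat.cast_sub (by omega : 2 ≤ y)] at h4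
  have h5 : 2 + y / (4 * L ^ 2) ≤ ((y : ℝ) - (2 : ℕ)) * (1 / (3 * L ^ 2)) := by
    have h6 : 0 < L ^ 2 := by positivity
    have h7 : 1 ≤ L ^ 2 := by nlinarith
    rw [mul_one_div, le_div_iff₀ (by positivity)]
    have h8 : (2 + y / (4 * L ^ 2)) * (3 * L ^ 2) = 6 * L ^ 2 + 3 / 4 * y := by
      field_simp
      ring
    rw [h8]
    push_cast
    nlinarith
  linarith

/-- windows not too far away -/
theorem mean_far (A : ℝ) (hA : 0 < A) : ∀ᶠ y : ℕ in atTop, ∀ x : ℕ, y ≤ x → x ≤ y ^ 64 →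
    ∑ n ∈ Ioc x (x + y), pr A n ≤ ∑ i ∈ Ioc 0 y, 1 / Real.log ((y + i : ℕ) : ℝ) + (y : ℝ) ^ (1 / 2 : ℝ) := by
  obtain ⟨n₀, hn₀⟩ := eventually_atTop.1 (err_gen A hA (1 / 256) (by norm_num))
  filter_upwards [eventually_ge_atTop n₀, eventually_ge_atTop 3] with y h1 h2 x hx1 hx2
  have hy0 : (0 : ℝ) < y := by exact_mod_cast (by omega : 0 < y)
  have hy1 : (1 : ℝ) ≤ y := by exact_mod_cast (by omega : 1 ≤ y)
  have h3 := blocks A hA.le x (x + y) (by omega) (by omega)
  have h4 := hn₀ (x + y) (by omega)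
  have h5 : ((x + y : ℕ) : ℝ) ^ (1 / 256 : ℝ) ≤ (y : ℝ) ^ (1 / 2 : ℝ) := by
    have h6 : x + y ≤ y ^ 65 := by
      have h7 : y ^ 65 = y ^ 64 * y := pow_succ y 64
      have h8 : y ≤ y ^ 64 := Nat.le_self_pow (by norm_num) y
      nlinarith
    have h7 : ((x + y : ℕ) : ℝ) ≤ (y : ℝ) ^ (65 : ℝ) := by
      have : ((x + y : ℕ) : ℝ) ≤ ((y ^ 65 : ℕ) : ℝ) := by exact_mod_cast h6
      refine this.trans (le_of_eq ?_)
      push_cast
      rw [← Real.rpow_natCast]
      norm_num
    calc ((x + y : ℕ) : ℝ) ^ (1 / 256 : ℝ) ≤ ((y : ℝ) ^ (65 : ℝ)) ^ (1 / 256 : ℝ) :=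
          Real.rpow_le_rpow (by positivity) h7 (by norm_num)
      _ = (y : ℝ) ^ (65 / 256 : ℝ) := by
          rw [← Real.rpow_mul hy0.le]
          norm_num
      _ ≤ (y : ℝ) ^ (1 / 2 : ℝ) := Real.rpow_le_rpow_of_exponent_le hy1 (by norm_num)
  have h6 : ∑ n ∈ Ioc x (x + y), 1 / Real.log (n : ℝ) ≤ ∑ i ∈ Ioc 0 y, 1 / Real.log ((y + i : ℕ) : ℝ) := by
    rw [sum_shift (fun n => 1 / Real.log (n : ℝ))]
    refine sum_le_sum fun i _ => ?_
    have := log_ge_one (n := y + i) (by omega)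
    apply one_div_le_one_div_of_le (by linarith)
    apply Real.log_le_log
    · exact_mod_cast (by omega : 0 < y + i)
    · exact_mod_cast (by omega : y + i ≤ x + i)
  linarith

/-- windows far away -/
theorem mean_mid (A : ℝ) (hA : 0 < A) : ∀ᶠ y : ℕ in atTop, ∀ x : ℕ, y ^ 64 ≤ x →
    ∑ n ∈ Ioc x (x + y), pr A n ≤ 1 / 2 * (y / Real.log y) := by
  classical
  have hT : Tendsto (fun n : ℕ => (n : ℝ)) atTop atTop := tendsto_natCast_atTop_atTop
  have hL : Tendsto (fun n : ℕ => Real.log (n : ℝ)) atTop atTop := Real.tendsto_log_atTop.comp hT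
  have hL2 : Tendsto (fun n : ℕ => Real.log (Real.log (n : ℝ))) atTop atTop := Real.tendsto_log_atTop.comp hL
  have hJ : Tendsto (fun x : ℕ => ⌊A * Real.log x⌋₊) atTop atTop :=
    tendsto_nat_floor_atTop.comp (hL.const_mul_atTop hA)
  have hVV1 : (1 : ℝ) < Real.exp Real.eulerMascheroniConstant := by
    rw [Real.one_lt_exp_iff]
    linarith [Real.one_half_lt_eulerMascheroniConstant]
  obtain ⟨n₁, hn₁⟩ := eventually_atTop.1 (Pool.Agent.T2H62.ML.pr_up A hA)
  have g1 : ∀ᶠ u : ℝ in atTop, 16 * Real.log u ≤ u := by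
    have h3 := Real.isLittleO_log_id_atTop.bound (show (0 : ℝ) < 1 / 16 by positivity)
    filter_upwards [h3, eventually_ge_atTop 1] with u hu hu1
    rw [Real.norm_eq_abs, Real.norm_eq_abs, id, abs_of_nonneg (by linarith : (0 : ℝ) ≤ u)] at hu
    have := (le_abs_self _).trans hu
    linarith
  have g2 : ∀ᶠ u : ℝ in atTop, Real.sqrt u ≤ A * u - 1 := by
    filter_upwards [eventually_ge_atTop ((2 / A) ^ 2), eventually_ge_atTop (2 / A), eventually_gt_atTop 0] with u hu hu1 hu2
    have h1 : 2 / A ≤ Real.sqrt u := by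
      rw [← Real.sqrt_sq (by positivity : (0 : ℝ) ≤ 2 / A)]
      exact Real.sqrt_le_sqrt hu
    rw [div_le_iff₀ hA] at h1 hu1
    have h2 : Real.sqrt u * Real.sqrt u = u := Real.mul_self_sqrt hu2.le
    have h3 : 0 < Real.sqrt u := Real.sqrt_pos.2 hu2
    nlinarith
  filter_upwards [eventually_ge_atTop n₁, eventually_ge_atTop 3, hL.eventually g1, hL.eventually g2,
    hL.eventually_ge_atTop 3, hL2.eventually_ge_atTop 1, err_gen A hA (1 / 4) (by norm_num),
    hJ.eventually (VV_tendsto.eventually (eventually_gt_nhds hVV1)), log_pow_small 1 1 (3 / 4) (by norm_num) one_pos]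
    with y h1 h2 h3 h4 h5 h6 h7 h8 h9 x hx
  obtain ⟨L, hLd⟩ : ∃ L : ℝ, L = Real.log y := ⟨_, rfl⟩
  obtain ⟨l, hl⟩ : ∃ l : ℝ, l = Real.log (Real.log y) := ⟨_, rfl⟩
  obtain ⟨j, hj⟩ : ∃ j : ℕ, j = ⌊A * Real.log y⌋₊ := ⟨_, rfl⟩
  rw [← hl] at h6
  rw [← hj] at h7 h8
  rw [← hLd] at h3 h4 h5 h9 ⊢
  have hl' : Real.log L = l := by rw [hLd, hl]
  rw [hl'] at h3
  have hy0 : (0 : ℝ) < y := by exact_mod_cast (by omega : 0 < y)
  have hy1 : (1 : ℝ) ≤ y := by exact_mod_cast (by omega : 1 ≤ y)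
  have hL0 : 0 < L := by linarith
  have hxy : y ≤ x := (Nat.le_self_pow (by norm_num) y).trans hx
  have hlx : 64 * L ≤ Real.log x := by
    have h10 : Real.log ((y : ℝ) ^ 64) ≤ Real.log x := Real.log_le_log (by positivity) (by exact_mod_cast hx)
    rw [Real.log_pow, ← hLd] at h10
    push_cast at h10
    exact h10
  have hpr : ∀ n ∈ Ioc x (x + y), pr A n ≤ 4 * Real.log (Real.log x) / Real.log x := by
    intro n hn
    exact hn₁ x (by omega) n (mem_Ioc.1 hn).1.le
  have hlx0 : 0 < Real.log x := by linarith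
  rcases le_or_gt (L ^ 2) (Real.log x) with hc | hc
  · -- very far away
    have h10 : 4 * Real.log (Real.log x) / Real.log x ≤ 8 * l / L ^ 2 := by
      have h11 : Real.exp 1 ≤ 3 := by linarith [Real.exp_one_lt_d9]
      have h12 := Real.log_div_self_antitoneOn (show L ^ 2 ∈ {x : ℝ | Real.exp 1 ≤ x} by
        show Real.exp 1 ≤ L ^ 2
        nlinarith) (show Real.log (x : ℝ) ∈ {x : ℝ | Real.exp 1 ≤ x} by
        show Real.exp 1 ≤ Real.log x
        linarith) hc
      simp only at h12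
      rw [Real.log_pow, hl'] at h12
      push_cast at h12
      calc 4 * Real.log (Real.log x) / Real.log x = 4 * (Real.log (Real.log x) / Real.log x) := by ring
        _ ≤ 4 * (2 * l / L ^ 2) := mul_le_mul_of_nonneg_left h12 (by norm_num)
        _ = 8 * l / L ^ 2 := by ring
    have h11 := sum_le_card_nsmul (Ioc x (x + y)) (fun n => pr A n) (8 * l / L ^ 2) (fun n hn => (hpr n hn).trans h10)
    rw [Nat.card_Ioc, nsmul_eq_mul, show x + y - x = y by omega] at h11
    refine h11.trans ?_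
    have h12 : 8 * l / L ^ 2 ≤ 1 / 2 / L := by
      rw [div_le_div_iff₀ (by positivity) hL0]
      nlinarith
    calc (y : ℝ) * (8 * l / L ^ 2) ≤ y * (1 / 2 / L) := mul_le_mul_of_nonneg_left h12 hy0.le
      _ = 1 / 2 * (y / L) := by ring
  · -- the middle range
    obtain ⟨q, hq⟩ : ∃ q : ℝ, q = l / (8 * L) := ⟨_, rfl⟩
    have hq0 : 0 < q := by rw [hq]; positivity
    have h10 : 4 * Real.log (Real.log x) / Real.log x ≤ q := by
      have h11 : Real.log (Real.log x) ≤ 2 * l := by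
        have := Real.log_le_log hlx0 hc.le
        rw [Real.log_pow, hl'] at this
        push_cast at this
        exact this
      rw [hq, div_le_div_iff₀ hlx0 (by positivity)]
      have h12 : 4 * Real.log (Real.log x) * (8 * L) ≤ 4 * (2 * l) * (8 * L) := by
        apply mul_le_mul_of_nonneg_right _ (by positivity)
        linarith
      nlinarith
    have hpr2 : ∀ n ∈ Ioc x (x + y), pr A n ≤ if ∀ p ∈ PJ j, ¬ p ∣ n then q else 0 := by
      intro n hn
      split_ifs with h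
      · exact (hpr n hn).trans h10
      · unfold pr
        rw [if_neg]
        intro h11
        apply h
        intro p hp
        have hp' := hp
        unfold PJ at hp'
        rw [mem_filter, mem_Icc] at hp'
        apply h11 p hp'.2
        have h12 : (p : ℝ) ≤ j := by exact_mod_cast hp'.1.2
        have h13 : (j : ℝ) ≤ A * L := by rw [hj, ← hLd]; exact Nat.floor_le (by positivity)
        have h14 : L ≤ Real.log n := by
          rw [hLd]
          apply Real.log_le_log hy0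
          have := (mem_Ioc.1 hn).1
          exact_mod_cast (by omega : y ≤ n)
        exact h12.trans (h13.trans (mul_le_mul_of_nonneg_left h14 hA.le))
    have h11 : ∑ n ∈ Ioc x (x + y), pr A n ≤ q * NP (PJ j) x (x + y) := by
      refine (sum_le_sum hpr2).trans (le_of_eq ?_)
      unfold NP
      rw [← sum_filter, sum_const, nsmul_eq_mul, mul_comm]
    have hVV1 := one_le_VV j
    have h12 : (2 : ℝ) ^ (PJ j).card ≤ (y : ℝ) ^ (1 / 4 : ℝ) := by
      refine le_trans ?_ h7
      have h13 : (1 : ℝ) ≤ (j : ℝ) + 1 := by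
        have : (0 : ℝ) ≤ j := Nat.cast_nonneg _
        linarith
      have h14 : (0 : ℝ) < (2 : ℝ) ^ (PJ j).card := by positivity
      calc (2 : ℝ) ^ (PJ j).card = 1 * (1 * (2 : ℝ) ^ (PJ j).card) := by ring
        _ ≤ ((j : ℝ) + 1) * (VV j * 2 ^ (PJ j).card) := by
            apply mul_le_mul h13 _ (by positivity) (by positivity)
            exact mul_le_mul_of_nonneg_right hVV1 h14.le
    -- the product
    have hsq : 1 ≤ Real.sqrt L := by
      rw [Real.one_le_sqrt]
      linarith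
    have hjs : Real.sqrt L ≤ j := by
      have h13 := Nat.lt_floor_add_one (A * L)
      rw [hLd, ← hj, ← hLd] at h13
      linarith
    have hlj : l / 2 ≤ Real.log j := by
      have h13 := Real.log_le_log (by linarith) hjs
      rw [Real.log_sqrt hL0.le, hl'] at h13
      exact h13
    have hlj0 : 0 < Real.log (j : ℝ) := by linarith
    have hVl : l / 2 ≤ VV j := by
      rw [lt_div_iff₀ hlj0, one_mul] at h8
      linarith
    have hprod : ∏ p ∈ PJ j, (1 - (p : ℝ)⁻¹) ≤ 2 / l := by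
      have h13 := VV_mul j
      have h14 : ∏ p ∈ PJ j, (1 - (p : ℝ)⁻¹) = 1 / VV j := by
        rw [eq_div_iff (by linarith)]
        linarith
      rw [h14, div_le_div_iff₀ (by linarith) (by linarith)]
      linarith
    have h13 : (NP (PJ j) x (x + y) : ℝ) ≤ y * (2 / l) + (y : ℝ) ^ (1 / 4 : ℝ) := by
      have h14 := (abs_le.1 (leg (PJ j) (fun p hp => PJ_prime hp) x (x + y))).2
      rw [max_eq_right (by omega : x ≤ x + y)] at h14
      have h15 : ((x + y : ℕ) : ℝ) - x = y := by push_cast; ring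
      rw [h15] at h14
      have h16 := mul_le_mul_of_nonneg_left hprod hy0.le
      linarith
    have h14 : q * (y * (2 / l)) = 1 / 4 * (y / L) := by
      rw [hq]
      have : l ≠ 0 := by linarith
      field_simp
      norm_num
    have h15 : q * (y : ℝ) ^ (1 / 4 : ℝ) ≤ 1 / 8 * (y / L) := by
      have h16 : l ≤ (y : ℝ) ^ (3 / 4 : ℝ) := by
        rw [pow_one, one_mul] at h9
        have : l ≤ L := by linarith
        linarith
      calc q * (y : ℝ) ^ (1 / 4 : ℝ) = 1 / 8 / L * (l * (y : ℝ) ^ (1 / 4 : ℝ)) := by rw [hq]; field_simp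
        _ ≤ 1 / 8 / L * ((y : ℝ) ^ (3 / 4 : ℝ) * (y : ℝ) ^ (1 / 4 : ℝ)) := by
            apply mul_le_mul_of_nonneg_left _ (by positivity)
            exact mul_le_mul_of_nonneg_right h16 (by positivity)
        _ = 1 / 8 * (y / L) := by
            rw [← Real.rpow_add hy0]
            norm_num
            ring
    have h16 := mul_le_mul_of_nonneg_left h13 hq0.le
    have h17 : 0 < (y : ℝ) / L := by positivity
    rw [mul_add, h14] at h16
    linarith

end Pool.Agent.T2H62.MS
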